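import Mathlib

set_option autoImplicit false

namespace Pool.Agent.Results.MP_b58a5b_nt.Unbounded

/-- A numerical semigroup: a submonoid of `(ℕ, +)` with finite complement. -/
def IsNumericalSemigroup (S : AddSubmonoid ℕ) : Prop := ((S : Set ℕ)ᶜ).Finite

/-- An irreducible numerical semigroup: one that is not the intersection of two numerical
semigroups properly containing it. -/
def IsIrreducible (S : AddSubmonoid ℕ) : Prop :=
  IsNumericalSemigroup S ∧ ∀ S₁ S₂ : AddSubmonoid ℕ, IsNumericalSemigroup S₁ →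
    IsNumericalSemigroup S₂ → S < S₁ → S < S₂ → S ≠ S₁ ⊓ S₂

/-- adjoining one element `h` with `2h, h + t ∈ S` -/
def adjoin (S : AddSubmonoid ℕ) (h : ℕ) (h2 : h + h ∈ S) (ht : ∀ t ∈ S, t ≠ 0 → h + t ∈ S) :
    AddSubmonoid ℕ where
  carrier := {x | x ∈ S ∨ x = h}
  zero_mem' := Or.inl S.zero_mem
  add_mem' := by
    rintro a b (ha | rfl) (hb | rfl)
    · exact Or.inl (S.add_mem ha hb)
    · by_cases h0 : a = 0
      · right; rw [h0, zero_add]
      · left; rw [add_comm]; exact ht a ha h0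
    · by_cases h0 : b = 0
      · right; rw [h0, add_zero]
      · left; exact ht b hb h0
    · exact Or.inl h2

theorem mem_adjoin {S : AddSubmonoid ℕ} {h : ℕ} {h2 : h + h ∈ S}
    {ht : ∀ t ∈ S, t ≠ 0 → h + t ∈ S} {x : ℕ} : x ∈ adjoin S h h2 ht ↔ x ∈ S ∨ x = h := Iff.rfl

theorem lt_adjoin {S : AddSubmonoid ℕ} {h : ℕ} (hh : h ∉ S) (h2 : h + h ∈ S)
    (ht : ∀ t ∈ S, t ≠ 0 → h + t ∈ S) : S < adjoin S h h2 ht := by
  refine lt_of_le_of_ne (fun x hx => mem_adjoin.mpr (Or.inl hx)) ?_
  intro he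
  apply hh
  rw [he]
  exact mem_adjoin.mpr (Or.inr rfl)

theorem isNS_of_le {S S' : AddSubmonoid ℕ} (h : S ≤ S') (hS : IsNumericalSemigroup S) :
    IsNumericalSemigroup S' :=
  hS.subset (Set.compl_subset_compl.mpr h)

/-- the symmetry property of irreducible numerical semigroups -/
theorem irr_prop {T : AddSubmonoid ℕ} (hT : IsIrreducible T) (h1 : 1 ∉ T) :
    ∃ F : ℕ, F ∉ T ∧ (∀ y, F < y → y ∈ T) ∧ ∀ x ≤ F, x ∉ T → F - x ∈ T ∨ 2 * x = F := by
  obtain ⟨hfin, hirr⟩ := hT
  -- the Frobenius number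
  have hne : ((T : Set ℕ)ᶜ).Nonempty := ⟨1, h1⟩
  obtain ⟨F, hF⟩ := Set.Finite.exists_maximal hfin hne
  have hFT : F ∉ T := hF.1
  have hFmax : ∀ y, F < y → y ∈ T := by
    intro y hy
    by_contra hyT
    have := hF.2 (show y ∈ (T : Set ℕ)ᶜ from hyT) hy.le
    omega
  have hF0 : F ≠ 0 := fun h => hFT (h ▸ T.zero_mem)
  refine ⟨F, hFT, hFmax, ?_⟩
  by_contra hcon
  push Not at hcon
  -- the set of bad elements
  let bad : Set ℕ := {x | x ≤ F ∧ x ∉ T ∧ F - x ∉ T ∧ 2 * x ≠ F}
  have hbadne : bad.Nonempty := by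
    obtain ⟨x, hx1, hx2, hx3, hx4⟩ := hcon
    exact ⟨x, hx1, hx2, hx3, hx4⟩
  have hbadfin : bad.Finite := hfin.subset (fun x hx => hx.2.1)
  obtain ⟨h, hh⟩ := Set.Finite.exists_maximal hbadfin hbadne
  obtain ⟨hhF, hhT, hFh, h2h⟩ := hh.1
  have hmax : ∀ y, y ∈ bad → y ≤ h := by
    intro y hy
    by_contra hlt
    push Not at hlt
    have := hh.2 hy hlt.le
    omega
  -- `F - h` is bad too, so `2 h > F`
  have hgt : F < 2 * h := by
    have hb : F - h ∈ bad := by
      refine ⟨Nat.sub_le _ _, hFh, ?_, ?_⟩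
      · rw [Nat.sub_sub_self hhF]; exact hhT
      · omega
    have := hmax _ hb
    omega
  have h2mem : h + h ∈ T := hFmax _ (by omega)
  have htmem : ∀ t ∈ T, t ≠ 0 → h + t ∈ T := by
    intro t ht ht0
    by_contra hnot
    have hle : h + t ≤ F := by
      by_contra hlt
      push Not at hlt
      exact hnot (hFmax _ hlt)
    have hnb : h + t ∉ bad := by
      intro hb
      have := hmax _ hb
      omega
    apply hnb
    refine ⟨hle, hnot, ?_, by omega⟩
    intro hmem
    apply hFh
    have : F - h = (F - (h + t)) + t := by omega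
    rw [this]
    exact T.add_mem hmem ht
  have hhneF : h ≠ F := by
    intro he
    apply hFh
    rw [he, Nat.sub_self]
    exact T.zero_mem
  -- the two semigroups
  have hFF : F + F ∈ T := hFmax _ (by omega)
  have hFt : ∀ t ∈ T, t ≠ 0 → F + t ∈ T := fun t _ ht0 => hFmax _ (by omega)
  have hlt1 := lt_adjoin hFT hFF hFt
  have hlt2 := lt_adjoin hhT h2mem htmem
  apply hirr _ _ (isNS_of_le hlt1.le hfin) (isNS_of_le hlt2.le hfin) hlt1 hlt2
  apply le_antisymm
  · exact le_inf hlt1.le hlt2.le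
  · intro x hx
    obtain ⟨hx1, hx2⟩ := AddSubmonoid.mem_inf.mp hx
    rcases mem_adjoin.mp hx1 with h | h
    · exact h
    · rcases mem_adjoin.mp hx2 with h' | h'
      · exact h'
      · exact absurd (h'.symm.trans h) hhneF

/-- the semigroup `{0} ∪ [c, ∞)` -/
def ordinary (c : ℕ) : AddSubmonoid ℕ where
  carrier := {x | x = 0 ∨ c ≤ x}
  zero_mem' := Or.inl rfl
  add_mem' := by
    rintro a b (ha | ha) (hb | hb)
    · left; omega
    · right; omega
    · right; omega
    · right; omega

theorem mem_ordinary {c x : ℕ} : x ∈ ordinary c ↔ x = 0 ∨ c ≤ x := Iff.rfl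

/-- the growth sequence -/
def bnd (N : ℕ) : ℕ → ℕ
  | 0 => 1
  | j + 1 => (2 * N + 2) * (bnd N j) ^ 2

theorem bnd_pos (N j : ℕ) : 1 ≤ bnd N j := by
  induction j with
  | zero => exact le_rfl
  | succ j ih =>
    show 1 ≤ (2 * N + 2) * (bnd N j) ^ 2
    exact Nat.one_le_iff_ne_zero.mpr (by positivity)

theorem bnd_mono (N : ℕ) : Monotone (bnd N) := by
  apply monotone_nat_of_le_succ
  intro j
  show bnd N j ≤ (2 * N + 2) * (bnd N j) ^ 2
  have := bnd_pos N j
  nlinarith [Nat.zero_le N, mul_nonneg (Nat.zero_le N) (sq_nonneg (bnd N j))]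

/-- the main covering argument -/
theorem covering (N k : ℕ) (hk : k ≤ N) (T : Fin k → AddSubmonoid ℕ)
    (hT : ∀ i, IsIrreducible (T i)) (hle : ∀ i, ordinary (bnd N N + 1) ≤ T i) :
    ∃ x, 1 ≤ x ∧ x < bnd N N + 1 ∧ ∀ i, x ∈ T i := by
  classical
  -- sets with a small common element
  let good : Finset (Finset (Fin k)) := Finset.univ.filter
    (fun J => ∃ n, 1 ≤ n ∧ n ≤ bnd N J.card ∧ ∀ i ∈ J, n ∈ T i)
  have hgne : good.Nonempty := ⟨∅, by
    simp only [good, Finset.mem_filter, Finset.mem_univ, true_and]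
    exact ⟨1, le_rfl, by simp [bnd], by simp⟩⟩
  obtain ⟨J, hJ, hJmax⟩ := Finset.exists_max_image good Finset.card hgne
  simp only [good, Finset.mem_filter, Finset.mem_univ, true_and] at hJ
  obtain ⟨n, hn1, hnB, hnJ⟩ := hJ
  have hJk : J.card ≤ k := by simpa using Finset.card_le_univ J
  set M := (2 * k + 2) * n with hM
  have hbig : ∀ i, i ∉ J → ∀ t, 1 ≤ t → t ≤ M → t ∉ T i := by
    intro i hi t ht1 htM htT
    have hmem : insert i J ∈ good := by
      simp only [good, Finset.mem_filter, Finset.mem_univ, true_and]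
      refine ⟨n * t, Nat.one_le_iff_ne_zero.mpr (by positivity), ?_, ?_⟩
      · rw [Finset.card_insert_of_notMem hi]
        show n * t ≤ (2 * N + 2) * (bnd N J.card) ^ 2
        calc n * t ≤ n * ((2 * k + 2) * n) := Nat.mul_le_mul_left _ htM
          _ = (2 * k + 2) * n ^ 2 := by ring
          _ ≤ (2 * N + 2) * (bnd N J.card) ^ 2 :=
            Nat.mul_le_mul (by omega) (Nat.pow_le_pow_left hnB 2)
      · intro j hj
        rw [Finset.mem_insert] at hj
        rcases hj with rfl | hj
        · have := (T j).nsmul_mem htT n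
          simpa [smul_eq_mul] using this
        · have := (T j).nsmul_mem (hnJ j hj) t
          simpa [smul_eq_mul, mul_comm] using this
    have := hJmax _ hmem
    rw [Finset.card_insert_of_notMem hi] at this
    omega
  by_cases hJu : J = Finset.univ
  · refine ⟨n, hn1, ?_, fun i => hnJ i (hJu ▸ Finset.mem_univ i)⟩
    have : bnd N J.card ≤ bnd N N := bnd_mono N (hJk.trans hk)
    omega
  -- Frobenius numbers
  have hMpos : 1 ≤ M := Nat.one_le_iff_ne_zero.mpr (by positivity)
  have hex : ∀ i, ∃ F : ℕ, i ∉ J → (F ∉ T i ∧ (∀ y, F < y → y ∈ T i) ∧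
      ∀ x ≤ F, x ∉ T i → F - x ∈ T i ∨ 2 * x = F) := by
    intro i
    by_cases hi : i ∈ J
    · exact ⟨0, fun h => absurd hi h⟩
    · obtain ⟨F, hF⟩ := irr_prop (hT i) (hbig i hi 1 le_rfl hMpos)
      exact ⟨F, fun _ => hF⟩
  choose Fr hFr using hex
  have hcompl : (Finset.univ \ J).Nonempty := by
    rw [Finset.sdiff_nonempty]
    intro h
    exact hJu (Finset.univ_subset_iff.mp h)
  obtain ⟨i0, hi0, hmax⟩ := Finset.exists_max_image (Finset.univ \ J) Fr hcompl
  have hi0J : i0 ∉ J := (Finset.mem_sdiff.mp hi0).2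
  set F := Fr i0 with hFdef
  obtain ⟨hFT, hFup, hFsym⟩ := hFr i0 hi0J
  have hFlt : F < bnd N N + 1 := by
    by_contra hge
    push Not at hge
    exact hFT (hle i0 (mem_ordinary.mpr (Or.inr hge)))
  have hMF : M ≤ F := by
    by_contra hlt
    push Not at hlt
    -- `F+1 ≤ M` is a gap
    exact hbig i0 hi0J (F + 1) (by omega) (by omega) (hFup _ (by omega))
  -- multiples of `n` in the window `[F - M, F)`
  let start := (F - M + n - 1) / n
  have hstart1 : F - M ≤ n * start := by
    have h1 : n * ((F - M + n - 1) / n) + (F - M + n - 1) % n = F - M + n - 1 :=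
      Nat.div_add_mod _ _
    have h2 : (F - M + n - 1) % n < n := Nat.mod_lt _ (by omega)
    show F - M ≤ n * ((F - M + n - 1) / n)
    omega
  have hstart2 : n * start ≤ F - M + n - 1 := Nat.mul_div_le _ _
  let Y : Finset ℕ := (Finset.range (2 * k + 2)).image (fun s => n * (start + s))
  have hYcard : Y.card = 2 * k + 2 := by
    rw [Finset.card_image_of_injective, Finset.card_range]
    intro s s' h
    have h' : n * (start + s) = n * (start + s') := h
    have := Nat.eq_of_mul_eq_mul_left (by omega : 0 < n) h'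
    omega
  have hYwin : ∀ y ∈ Y, F - M ≤ y ∧ y < F ∧ n ∣ y := by
    intro y hy
    simp only [Y, Finset.mem_image, Finset.mem_range] at hy
    obtain ⟨s, hs, rfl⟩ := hy
    refine ⟨?_, ?_, Dvd.intro _ rfl⟩
    · rw [mul_add]; omega
    · have h1 : n * s ≤ n * (2 * k + 1) := Nat.mul_le_mul_left _ (by omega)
      have h2 : n * (2 * k + 1) + n = M := by rw [hM]; ring
      rw [mul_add]
      omega
  let X : Finset ℕ := insert 0 ((Finset.univ.image Fr) ∪ (Finset.univ.image (fun i => Fr i / 2)))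
  have hXcard : X.card ≤ 2 * k + 1 := by
    refine (Finset.card_insert_le _ _).trans ?_
    have h1 := Finset.card_union_le (Finset.univ.image Fr) (Finset.univ.image (fun i => Fr i / 2))
    have h2 : (Finset.univ.image Fr).card ≤ k := by
      simpa using (Finset.card_image_le (s := (Finset.univ : Finset (Fin k))) (f := Fr))
    have h3 : (Finset.univ.image (fun i => Fr i / 2)).card ≤ k := by
      simpa using (Finset.card_image_le (s := (Finset.univ : Finset (Fin k)))
        (f := fun i => Fr i / 2))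
    omega
  obtain ⟨y, hyY, hyX⟩ := Finset.exists_mem_notMem_of_card_lt_card
    (show X.card < Y.card by omega)
  obtain ⟨hy1, hy2, hy3⟩ := hYwin y hyY
  simp only [X, Finset.mem_insert, Finset.mem_union, Finset.mem_image, Finset.mem_univ, true_and,
    not_or, not_exists] at hyX
  obtain ⟨hy0, hyF, hyF2⟩ := hyX
  refine ⟨y, by omega, by omega, fun i => ?_⟩
  by_cases hi : i ∈ J
  · obtain ⟨q, rfl⟩ := hy3
    have := (T i).nsmul_mem (hnJ i hi) q
    simpa [smul_eq_mul, mul_comm] using this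
  · obtain ⟨hiT, hiup, hisym⟩ := hFr i hi
    have hile : Fr i ≤ F := hmax i (Finset.mem_sdiff.mpr ⟨Finset.mem_univ i, hi⟩)
    have hne : Fr i ≠ y := hyF i
    rcases Nat.lt_or_ge (Fr i) y with h | h
    · exact hiup y h
    · have hx1 : Fr i - y ∉ T i := hbig i hi _ (by omega) (by omega)
      rcases hisym (Fr i - y) (Nat.sub_le _ _) hx1 with h2 | h2
      · rwa [Nat.sub_sub_self h] at h2
      · exfalso
        apply hyF2 i
        omega

/-- There is no uniform bound on the number of irreducible numerical semigroups needed to write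
a numerical semigroup as their intersection. -/
theorem result : ∀ N : ℕ, ∃ S : AddSubmonoid ℕ, IsNumericalSemigroup S ∧
    ∀ (k : ℕ) (T : Fin k → AddSubmonoid ℕ), k ≤ N → (∀ i, IsIrreducible (T i)) → S ≠ ⨅ i, T i := by
  intro N
  refine ⟨ordinary (bnd N N + 1), ?_, ?_⟩
  · refine (Set.finite_Iio (bnd N N + 1)).subset ?_
    intro x hx
    by_contra hcon
    exact hx (mem_ordinary.mpr (Or.inr (by simpa using hcon)))
  · intro k T hk hT he
    have hle : ∀ i, ordinary (bnd N N + 1) ≤ T i := fun i => he.le.trans (iInf_le T i)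
    obtain ⟨x, hx1, hx2, hx3⟩ := covering N k hk T hT hle
    have hmem : x ∈ ordinary (bnd N N + 1) := by
      rw [he, AddSubmonoid.mem_iInf]
      exact hx3
    rcases mem_ordinary.mp hmem with h | h <;> omega

end Pool.Agent.Results.MP_b58a5b_nt.Unbounded
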